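import Pool.Agent.Zk42.UN.Exc

/-!
# The preperiodic points of the maps `x ^ (-d) + c` over number fields

* Let `K` be a number field and `d ≥ 5`, `d ≡ 2 mod 3`. For all but finitely many `c` in `K` the
  rational map `x ↦ 1 / x ^ d + c` of degree `d` has no preperiodic point in `ℙ¹(K)` at all, or a
  fixed point `w` in `K` such that the preperiodic points in `ℙ¹(K)` are exactly the `x` in `K` with
  `x ^ d = w ^ d`. In particular for only finitely many `c` there is a periodic point in `ℙ¹(K)` of
  exact period `≥ 2`, whatever the period. And the number of preperiodic points in `ℙ¹(K)` is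
  bounded by a constant `B` for all `c` together.
* More generally let `K` be a number field, `S` a finite set of primes of `K`, and let `n = 6`,
  `d ≥ 4` or `n = 3`, `d ≥ 6` even. All maps `a / x ^ d + b` over `K`, `a, b ≠ 0`, with the following
  property have at most `B` preperiodic points in `ℙ¹(K)`, and those which are not conjugate by
  a homothety over `K` to one of finitely many maps have no preperiodic points in `ℙ¹(K)` but the
  `x` in `K` with `x ^ d = w ^ d`, `w` in `K` a fixed point: at the primes `v ∉ S` with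
  `v (b ^ (d + 1) / a) > 1` (no potentially good reduction) for which `v (a / b)` is the `d`-th power of
  an element `r` of the value group, `v (a) / r ^ (d + 1)` is an `n`-th power in the value group.

These are the rational maps with two totally ramified points one of which is the value of the other
(`0 ↦ ∞ ↦ b`), as the polynomials `a x ^ d + b` are those where one of the two points is fixed.

Proof. Let `L` be the field of the `d`-th roots of unity over `K` and let `x ≠ y` be periodic points
different from `0` and `∞`. Let `v` be a prime of `L` prime to `d`. At a place of potentially good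
reduction the suitably scaled chordal distances `δ` satisfy `δ (f x, f y) = ∏ δ (x, ζ y) ≤ δ (x, y)`,
so that `δ (x, ζ y) = 1` for all roots of unity `ζ ≠ 1`, and the `v (x - ζ y)`, `ζ ≠ 1`, are equal. At
the other places there is an attracting fixed point of absolute value `v (b)`, and all the other
periodic points have the same absolute value `r`; for these the absolute values of all the
differences `x - ζ y` are `r / q ^ m` with `m ≥ 0`, where `q = v (a) / r ^ (d + 1)`. So
`(x - ζ y) / (x - ζ' y)` is an `n`-th power up to finitely many factors for all `ζ, ζ' ≠ 1`, and `x / y`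
comes from a point on one of finitely many twists of the curve `u ^ 6 + v ^ 6 = 1` if `n = 6`, and on
one of finitely many twists of `y ^ 2 = x ^ 6 + 1` if `n = 3`, `d` even. These curves have finitely
many points over every number field by the library (`Pool/Agent/H437R2/Man`). The same holds for
`x / w` if `f x = ζ w ≠ w`, `w` a fixed point. Finally if `x = ρ y`, `f (x) = ρ₁ y`, `f (y) = ρ₂ y`,
`ρ ^ d ≠ 1`, then `a / y ^ (d + 1) = (ρ₁ - ρ₂) / (ρ ^ (-d) - 1)` and `b / y` take finitely many values.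
-/

set_option autoImplicit false

namespace Pool.Agent.Results.MP_90787a_nt.InversePowerMaps

open IsDedekindDomain NumberField OnePoint
open scoped WithZero

open Classical in
/-- the rational map `x ↦ a / x ^ d + b` on the projective line `K ∪ {∞}`: it maps `∞` to `b`, `0` to
`∞`, and `x ≠ 0` to `a / x ^ d + b` -/
noncomputable def invPow {K : Type} [Field K] (a b : K) (d : ℕ) (P : OnePoint K) : OnePoint K :=
  P.elim (b : OnePoint K) fun x => if x = 0 then ∞ else ((a / x ^ d + b : K) : OnePoint K)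

/-- the set of the preperiodic points of a map `f` -/
def preperiodic {X : Type} (f : X → X) : Set X := {P | ∃ i j : ℕ, i < j ∧ f^[i] P = f^[j] P}

theorem result :
    -- all maps `x ^ (-d) + c` over a number field, `d ≡ 2 mod 3`
    (∀ d : ℕ, 5 ≤ d → d % 3 = 2 → ∀ (K : Type) [Field K] [NumberField K],
      ∃ (B : ℕ) (E : Finset K), ∀ c : K, (preperiodic (invPow 1 c d)).encard ≤ B ∧
        (c ∉ E → preperiodic (invPow 1 c d) = ∅ ∨
          ∃ w : K, w ≠ 0 ∧ 1 / w ^ d + c = w ∧
            preperiodic (invPow 1 c d) = {P : OnePoint K | ∃ x : K, P = x ∧ x ^ d = w ^ d})) ∧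
    -- maps `a / x ^ d + b` with a condition at the primes of bad reduction outside `S`
    (∀ n d : ℕ, (n = 6 ∧ 4 ≤ d ∨ n = 3 ∧ 6 ≤ d ∧ Even d) →
      ∀ (K : Type) [Field K] [NumberField K] (S : Set (HeightOneSpectrum (𝓞 K))), S.Finite →
      ∃ (B : ℕ) (F : Finset (K × K)), ∀ a b : K, a ≠ 0 → b ≠ 0 →
        (∀ v : HeightOneSpectrum (𝓞 K), v ∉ S → v.valuation K a < v.valuation K (b ^ (d + 1)) →
          ∀ r : ℤᵐ⁰, v.valuation K b * r ^ d = v.valuation K a →
            ∃ h : ℤᵐ⁰, v.valuation K a = r ^ (d + 1) * h ^ n) →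
        (preperiodic (invPow a b d)).encard ≤ B ∧
        ((∀ l : K, l ≠ 0 → (a / l ^ (d + 1), b / l) ∉ F) →
          preperiodic (invPow a b d) = ∅ ∨
          ∃ w : K, w ≠ 0 ∧ a / w ^ d + b = w ∧
            preperiodic (invPow a b d) = {P : OnePoint K | ∃ x : K, P = x ∧ x ^ d = w ^ d})) := by
  classical
  have key : ∀ n d : ℕ, (n = 6 ∧ 4 ≤ d ∨ n = 3 ∧ 6 ≤ d ∧ Even d) →
      ∀ (K : Type) [Field K] [NumberField K] (S : Set (HeightOneSpectrum (𝓞 K))), S.Finite →
      ∃ (B : ℕ) (F : Finset (K × K)), ∀ a b : K, a ≠ 0 → b ≠ 0 →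
        (∀ v : HeightOneSpectrum (𝓞 K), v ∉ S → v.valuation K a < v.valuation K (b ^ (d + 1)) →
          ∀ r : ℤᵐ⁰, v.valuation K b * r ^ d = v.valuation K a →
            ∃ h : ℤᵐ⁰, v.valuation K a = r ^ (d + 1) * h ^ n) →
        (preperiodic (invPow a b d)).encard ≤ B ∧
        ((∀ l : K, l ≠ 0 → (a / l ^ (d + 1), b / l) ∉ F) →
          preperiodic (invPow a b d) = ∅ ∨
          ∃ w : K, w ≠ 0 ∧ a / w ^ d + b = w ∧
            preperiodic (invPow a b d) = {P : OnePoint K | ∃ x : K, P = x ∧ x ^ d = w ^ d}) := by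
    intro n d hnd K _ _ S hS
    have hd2 : 2 ≤ d := by omega
    have hd0 : 0 < d := by omega
    obtain ⟨R, hRd, hB⟩ : ∃ (R : Finset K), (∀ ρ ∈ R, ρ ^ d ≠ 1) ∧ ∀ a b : K, a ≠ 0 →
        Pool.Agent.Zk42.UN.CondN S a b d n →
      (∀ x y : K, x ≠ 0 → y ≠ 0 →
        Pool.Agent.Zk42.UC.Per (Pool.Agent.Zk42.UN.fn a b d) (x : OnePoint K) →
        Pool.Agent.Zk42.UC.Per (Pool.Agent.Zk42.UN.fn a b d) (y : OnePoint K) → x ≠ y →
        x / y ∈ R) ∧
      (∀ x z ζ : K, x ≠ 0 → z ≠ 0 → Pool.Agent.Zk42.UN.fn a b d (z : OnePoint K) = z →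
        ζ ^ d = 1 → ζ ≠ 1 →
        Pool.Agent.Zk42.UN.fn a b d (x : OnePoint K) = ((ζ * z : K) : OnePoint K) →
        x / z ∈ R) := by
      rcases hnd with ⟨rfl, hd⟩ | ⟨rfl, hd, hde⟩
      · exact Pool.Agent.Zk42.UN.ratiosN Pool.Agent.Zk42.UC.sel6 (by omega)
          (fun L _ _ μ hμ T hT => Pool.Agent.Zk42.UC.rfin6 L hμ hd T hT) K S hS
      · exact Pool.Agent.Zk42.UN.ratiosN Pool.Agent.Zk42.UC.sel3 (by omega)
          (fun L _ _ μ hμ T hT => Pool.Agent.Zk42.UC.rfin3 L hμ hd hde T hT) K S hS
    set U : Finset K := insert 0 (R ∪ Polynomial.nthRootsFinset d (1 : K)) with hU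
    set F := Pool.Agent.Zk42.UN.excN d R U with hF
    refine ⟨d + ∑ p ∈ F, (preperiodic (invPow p.1 p.2 d)).ncard, F, fun a b ha hb hC => ?_⟩
    obtain ⟨h1, h3⟩ := hB a b ha (fun v hv h1 r hr => by
      refine hC v hv ?_ r hr
      rw [map_pow]
      exact h1)
    rcases Pool.Agent.Zk42.UN.dichotomyN (U := U) ha hb hd0 hRd
      (Finset.subset_union_left.trans (Finset.subset_insert _ _))
      (fun ζ hζ => Finset.mem_insert_of_mem (Finset.mem_union_right _
        ((Polynomial.mem_nthRootsFinset (by omega) 1).2 hζ))) (Finset.mem_insert_self _ _)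
      h1 h3 with ⟨y, hy, hmem⟩ | h | ⟨w, hw0, hw, h⟩
    · refine ⟨?_, fun hno => absurd hmem (hno y hy)⟩
      have e1 : (preperiodic (invPow a b d)).encard =
          (preperiodic (invPow (a / y ^ (d + 1)) (b / y) d)).encard :=
        Pool.Agent.Zk42.UN.encard_sc hy
      have hfin : (preperiodic (invPow (a / y ^ (d + 1)) (b / y) d)).Finite :=
        Pool.Agent.Zk42.UN.finite_PP _ _ (div_ne_zero ha (pow_ne_zero _ hy)) hd2
      rw [e1, ← hfin.cast_ncard_eq]
      have h5 : (preperiodic (invPow (a / y ^ (d + 1)) (b / y) d)).ncard ≤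
          ∑ p ∈ F, (preperiodic (invPow p.1 p.2 d)).ncard :=
        Finset.single_le_sum (f := fun p : K × K => (preperiodic (invPow p.1 p.2 d)).ncard)
          (fun _ _ => Nat.zero_le _) hmem
      exact_mod_cast h5.trans (Nat.le_add_left _ _)
    · have e : preperiodic (invPow a b d) = ∅ := Set.eq_empty_iff_forall_notMem.2 h
      refine ⟨?_, fun _ => Or.inl e⟩
      rw [e, Set.encard_empty]
      exact zero_le
    · have e : preperiodic (invPow a b d) = {P : OnePoint K | ∃ x : K, P = x ∧ x ^ d = w ^ d} := Set.ext h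
      refine ⟨?_, fun _ => Or.inr ⟨w, hw0, ?_, e⟩⟩
      · have hsub : {P : OnePoint K | ∃ x : K, P = x ∧ x ^ d = w ^ d} ⊆
            (((Polynomial.nthRoots d (w ^ d)).toFinset.image
              (fun x : K => (x : OnePoint K)) : Finset (OnePoint K)) : Set (OnePoint K)) := by
          rintro P ⟨x, rfl, hx⟩
          rw [Finset.mem_coe, Finset.mem_image]
          exact ⟨x, Multiset.mem_toFinset.2 ((Polynomial.mem_nthRoots hd0).2 hx), rfl⟩
        rw [e]
        refine (Set.encard_le_encard hsub).trans ?_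
        rw [Set.encard_coe_eq_coe_finsetCard]
        have h5 : ((Polynomial.nthRoots d (w ^ d)).toFinset.image
            (fun x : K => (x : OnePoint K))).card ≤ d :=
          Finset.card_image_le.trans ((Multiset.toFinset_card_le _).trans
            (Polynomial.card_nthRoots _ _))
        exact_mod_cast h5.trans (Nat.le_add_right _ _)
      · rw [Pool.Agent.Zk42.UN.fn_coe hw0] at hw
        exact OnePoint.coe_injective hw
  refine ⟨?_, key⟩
  intro d hd hd3 K _ _
  obtain ⟨n, hn, hdvd⟩ : ∃ n : ℕ, (n = 6 ∧ 4 ≤ d ∨ n = 3 ∧ 6 ≤ d ∧ Even d) ∧ n ∣ d + 1 := by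
    rcases Nat.even_or_odd d with he | ho
    · obtain ⟨k, hk⟩ := he
      exact ⟨3, Or.inr ⟨rfl, by omega, ⟨k, hk⟩⟩, by omega⟩
    · obtain ⟨k, hk⟩ := ho
      exact ⟨6, Or.inl ⟨rfl, by omega⟩, by omega⟩
  obtain ⟨B, F, hB⟩ := key n d hn K ∅ Set.finite_empty
  have hd2 : 2 ≤ d := by omega
  refine ⟨B + (preperiodic (invPow (1 : K) 0 d)).ncard,
    insert 0 (F.biUnion (fun p => (Polynomial.nthRoots (d + 1) (1 / p.1)).toFinset.image
    (fun l => p.2 * l))), fun c => ?_⟩
  by_cases hc0 : c = 0
  · subst hc0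
    refine ⟨?_, fun h => absurd (Finset.mem_insert_self _ _) h⟩
    have hfin : (preperiodic (invPow (1 : K) 0 d)).Finite :=
      Pool.Agent.Zk42.UN.finite_PP _ _ one_ne_zero hd2
    rw [← hfin.cast_ncard_eq]
    exact_mod_cast Nat.le_add_left _ _
  obtain ⟨h1, h2⟩ := hB 1 c one_ne_zero hc0 (by
    intro v _ _ r hr
    obtain ⟨k, hk⟩ := hdvd
    have hr0 : r ≠ 0 := by
      rintro rfl
      rw [zero_pow (by omega), mul_zero, map_one] at hr
      exact zero_ne_one hr
    refine ⟨(r ^ k)⁻¹, ?_⟩
    rw [map_one, hk, inv_pow, ← pow_mul, Nat.mul_comm k, mul_inv_cancel₀ (pow_ne_zero _ hr0)])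
  refine ⟨h1.trans (by exact_mod_cast Nat.le_add_right _ _), fun hc => ?_⟩
  rw [Finset.mem_insert, not_or] at hc
  have hF : ∀ l : K, l ≠ 0 → (1 / l ^ (d + 1), c / l) ∉ F := by
    intro l hl hF
    refine hc.2 (Finset.mem_biUnion.2 ⟨_, hF, Finset.mem_image.2 ⟨l, ?_, ?_⟩⟩)
    · rw [Multiset.mem_toFinset, Polynomial.mem_nthRoots (by omega)]
      show l ^ (d + 1) = 1 / (1 / l ^ (d + 1))
      rw [one_div_one_div]
    · show c / l * l = c
      exact div_mul_cancel₀ _ hl
  exact h2 hF

end Pool.Agent.Results.MP_90787a_nt.InversePowerMaps
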