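import Pool.Agent.Zk42.US.Main2

/-!
# Uniform boundedness for polynomials of powers with arbitrarily many parameters

Let `K` be a number field, `S` a finite set of primes of `K`, and let `D ≥ 5`, `d, e ≥ 1` with
`D d e ≡ 1 mod 3`, and `d e` odd if `D` is odd. We consider the polynomials

  `f (x) = F (H (x) ^ D)`  and  `f (x) = H (F (x ^ D))`

over `K`, where `F`, `H` are monic of the degrees `d`, `e`, the coefficients of `H` and the
nonconstant coefficients of `F` are `S`-integral, while the constant coefficient `c` of `F` is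
any element of `K`. For instance `f = H (x) ^ D + c` for `d = 1` and `f = F (x ^ D)` for `e = 1`. More
generally it suffices that at each prime `v ∉ S` either all the coefficients of `F` are
`v`-integral or its constant coefficient dominates: `|c| > 1` and `|F_j| < |c| ^ (1 - j / d)` for
the coefficients `F_j` of `X ^ j`, `0 < j < d`.

There are a number `B` and a finite set `S'` of primes, which depend only on `K`, `S`, `D`, `d`, `e`,
such that for all these polynomials together (so with `d + e` parameters, one of them without any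
integrality condition):

1. `f` has at most `B` periodic points in `K`.
2. If `f` has three periodic points in `K`, or a cycle of length at least two in `K`, then `f` has
   at most `B` preperiodic points in `K`.
3. Suppose that `K` contains no root of unity `η` with `η ^ (D d) = 1 ≠ η ^ D` (for instance
   `d = 1`, or `K = ℚ`). If `c` is not integral at some prime outside `S'` then `f` has at most one
   periodic point in `K` (and it is a fixed point).

The case `d = e = 1` are the unicritical polynomials `x ^ D + c`.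

Proof. The maps `F (H (x) ^ D)` and `H (F (x ^ D))` are semiconjugate to each other by `H` and
`F (x ^ D)`, which are bijective on the periodic points; so let `f (x) = H (F (x ^ D))`.
Let `L` be the field of the `D`-th roots of unity over `K` and let `x ≠ y` be periodic points.
Let `v` be a prime of `L` prime to `D d e` and not above `S`. If the coefficients are `v`-integral then
`|x - ζ y| = 1` for all `D`-th roots of unity `ζ ≠ 1`. If `c` dominates then all preperiodic points
have the absolute value `r`, `r ^ (D d) = |c|`, the numbers `F (x ^ D)` have the absolute value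
`s`, `s ^ e = r`, and all the numbers `|x - ζ y|` are of the form `r / s ^ ((D d e - 1) m)`, `m ≥ 0`.
So the quotients `(x - ζ y) / (x - ζ' y)`, `ζ, ζ' ≠ 1`, are cubes, and sixth
powers if `D` is odd, up to finitely many factors, and `x / y` is in a finite set which does not depend
on `f` by the Mordell conjecture for the twists of `u ^ 6 + v ^ 6 = 1` and of `y ^ 2 = x ^ 6 + 1`
(library `Pool/Agent/H437R2/Man`). For a point which runs into a point `p` with `f (p) = f (w)`,
`w` periodic, `p` not periodic, the good places are controlled by the derivative of `H (F)`: if `p`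
is congruent to a periodic point `y' ≠ w` then this derivative vanishes at `w ^ D` modulo `v`, which
is not possible for a periodic point `w` congruent to another one. Finally if `f` has two periodic
points, `ρ` is their ratio and `c` dominates at `v`, then `v` divides `ρ ^ (D d) - 1`.
-/

set_option autoImplicit false

namespace Pool.Agent.Results.MP_90787a_nt.PolynomialsOfPowers

open IsDedekindDomain NumberField Polynomial
open scoped WithZero

/-- the set of the preperiodic points of a self-map `f` of `K` -/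
def preperiodic {K : Type} (f : K → K) : Set K := {x | ∃ i j : ℕ, i < j ∧ f^[i] x = f^[j] x}

/-- the set of the periodic points of a self-map `f` of `K` -/
def periodic {K : Type} (f : K → K) : Set K := {x | ∃ n : ℕ, 0 < n ∧ f^[n] x = x}

/-- At every prime `v ∉ S` the coefficients of `H` are `v`-integral, and either all the coefficients
of `F` are `v`-integral, or the constant coefficient of `F` dominates. -/
def Admissible {K : Type} [Field K] [NumberField K] (S : Set (HeightOneSpectrum (𝓞 K)))
    (F H : K[X]) : Prop :=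
  ∀ v : HeightOneSpectrum (𝓞 K), v ∉ S → (∀ j, v.valuation K (H.coeff j) ≤ 1) ∧
    ((∀ j, v.valuation K (F.coeff j) ≤ 1) ∨
    (1 < v.valuation K (F.coeff 0) ∧ ∀ j, 0 < j → j < F.natDegree →
      v.valuation K (F.coeff j) ^ F.natDegree < v.valuation K (F.coeff 0) ^ (F.natDegree - j)))

lemma encard_le {K : Type} {s : Set K} {B : ℕ}
    (h : ∀ X : Finset K, (∀ x ∈ X, x ∈ s) → X.card ≤ B) : s.encard ≤ B := by
  by_contra hc
  push Not at hc
  have h1 : ((B + 1 : ℕ) : ℕ∞) ≤ s.encard := by
    rw [Nat.cast_add, Nat.cast_one]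
    exact Order.add_one_le_of_lt hc
  obtain ⟨t, ht, hcard⟩ := Set.exists_subset_encard_eq h1
  have hfin : t.Finite := Set.finite_of_encard_eq_coe hcard
  have h2 := h hfin.toFinset (fun x hx => ht (hfin.mem_toFinset.1 hx))
  have h3 : t.encard = (hfin.toFinset.card : ℕ∞) := hfin.encard_eq_coe_toFinset_card
  rw [hcard] at h3
  have h4 : B + 1 = hfin.toFinset.card := by exact_mod_cast h3
  omega

lemma exists_three {K : Type} {s : Set K} (h : 3 ≤ s.encard) :
    ∃ Y : Finset K, (∀ y ∈ Y, y ∈ s) ∧ 3 ≤ Y.card := by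
  obtain ⟨t, ht, hcard⟩ := Set.exists_subset_encard_eq h
  have hfin : t.Finite := Set.finite_of_encard_eq_coe (k := 3) hcard
  refine ⟨hfin.toFinset, fun y hy => ht (hfin.mem_toFinset.1 hy), ?_⟩
  have h3 : t.encard = (hfin.toFinset.card : ℕ∞) := hfin.encard_eq_coe_toFinset_card
  rw [hcard] at h3
  have h4 : 3 = hfin.toFinset.card := by exact_mod_cast h3
  omega

lemma finite_bad (K : Type) [Field K] [NumberField K] {x : K} (hx : x ≠ 0) :
    {v : HeightOneSpectrum (𝓞 K) | v.valuation K x ≠ 1}.Finite := by
  obtain ⟨a, b, hb, rfl⟩ := IsFractionRing.div_surjective (A := 𝓞 K) x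
  have hb0 : b ≠ 0 := nonZeroDivisors.ne_zero hb
  have ha0 : a ≠ 0 := by
    rintro rfl
    rw [map_zero, zero_div] at hx
    exact hx rfl
  refine ((Pool.Agent.Zk42.UC.finite_bad K a ha0).union
    (Pool.Agent.Zk42.UC.finite_bad K b hb0)).subset ?_
  intro v hv
  by_contra hc
  rw [Set.mem_union, not_or, Set.mem_ofPred_eq, Set.mem_ofPred_eq, not_not, not_not] at hc
  apply hv
  rw [map_div₀, hc.1, hc.2, div_one]

theorem result :
    ∀ D d e : ℕ, 5 ≤ D → D * d * e % 3 = 1 → (Even D ∨ Odd (d * e)) →
    ∀ (K : Type) [Field K] [NumberField K] (S : Set (HeightOneSpectrum (𝓞 K))), S.Finite →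
    -- polynomials with `S`-integral coefficients except the constant coefficient of `F`
    (∀ F H : K[X], F.Monic → (∀ v ∉ S, ∀ j, v.valuation K (H.coeff j) ≤ 1) →
      (∀ v ∉ S, ∀ j, 0 < j → v.valuation K (F.coeff j) ≤ 1) → Admissible S F H) ∧
    ∃ (B : ℕ) (S' : Set (HeightOneSpectrum (𝓞 K))), S'.Finite ∧
      ∀ F H : K[X], F.Monic → H.Monic → F.natDegree = d → H.natDegree = e → Admissible S F H →
      ∀ f : K → K, (f = fun x => F.eval (H.eval x ^ D)) ∨ (f = fun x => H.eval (F.eval (x ^ D))) →
        -- periodic points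
        (periodic f).encard ≤ B ∧
        -- preperiodic points
        ((3 ≤ (periodic f).encard ∨ ∃ x ∈ periodic f, f x ≠ x) →
          (preperiodic f).encard ≤ B) ∧
        -- at most one periodic point unless the coefficients are `S'`-integral
        ((∀ η : K, η ^ (D * d) = 1 → η ^ D = 1) →
          (∃ v ∉ S', 1 < v.valuation K (F.coeff 0)) → (periodic f).Subsingleton) := by
  classical
  intro D d e hD hDe hpar K _ _ S hS
  have hd0 : 0 < d := Nat.pos_of_ne_zero (by rintro rfl; omega)
  have he0 : 0 < e := Nat.pos_of_ne_zero (by rintro rfl; omega)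
  have hDd : 2 ≤ D * d := by
    calc 2 ≤ 5 * 1 := by norm_num
      _ ≤ D * d := Nat.mul_le_mul hD hd0
  have hd : 2 ≤ D * d * e := by
    calc 2 ≤ 2 * 1 := by norm_num
      _ ≤ D * d * e := Nat.mul_le_mul hDd he0
  refine ⟨?_, ?_⟩
  · intro F H hF hHi hi v hv
    refine ⟨hHi v hv, ?_⟩
    rcases le_or_gt (v.valuation K (F.coeff 0)) 1 with h | h
    · left
      intro j
      rcases Nat.eq_zero_or_pos j with rfl | hj
      · exact h
      · exact hi v hv j hj
    · right
      refine ⟨h, fun j hj0 hj => ?_⟩
      calc v.valuation K (F.coeff j) ^ F.natDegree ≤ 1 := pow_le_one' (hi v hv j hj0) _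
        _ < _ := one_lt_pow₀ h (by omega)
  have hratios : ∃ R : Finset K, (∀ ρ ∈ R, ρ ^ D ≠ 1) ∧ ∀ F H : K[X], F.Monic → H.Monic →
      F.natDegree = d → H.natDegree = e → Pool.Agent.Zk42.US.Adm2 S F H →
      (∀ x y : K, Pool.Agent.Zk42.UC.Per (Pool.Agent.Zk42.US.fs (H.comp F) D) x →
        Pool.Agent.Zk42.UC.Per (Pool.Agent.Zk42.US.fs (H.comp F) D) y → x ≠ y → y ≠ 0 →
        x / y ∈ R) ∧
      (∀ (x y w : K) (k : ℕ), Pool.Agent.Zk42.UC.PP (Pool.Agent.Zk42.US.fs (H.comp F) D) x →
        Pool.Agent.Zk42.UC.Per (Pool.Agent.Zk42.US.fs (H.comp F) D) y →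
        Pool.Agent.Zk42.UC.Per (Pool.Agent.Zk42.US.fs (H.comp F) D) w → 1 ≤ k →
        Pool.Agent.Zk42.US.fs (H.comp F) D ((Pool.Agent.Zk42.US.fs (H.comp F) D)^[k] x) =
          Pool.Agent.Zk42.US.fs (H.comp F) D w →
        ¬ Pool.Agent.Zk42.UC.Per (Pool.Agent.Zk42.US.fs (H.comp F) D)
          ((Pool.Agent.Zk42.US.fs (H.comp F) D)^[k] x) →
        (Pool.Agent.Zk42.US.fs (H.comp F) D)^[k] y ≠ w → y ≠ 0 → x / y ∈ R) := by
    rcases Nat.even_or_odd D with hev | hodd
    · exact Pool.Agent.Zk42.US.ratios2 Pool.Agent.Zk42.UC.sel3 hd (by omega)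
        (fun L _ _ μ hμ T hT => Pool.Agent.Zk42.UC.rfin3 L hμ (by
          obtain ⟨k, hk⟩ := hev
          omega) hev T hT) K S hS
    · have hoe : Odd (d * e) := by
        rcases hpar with h | h
        · exact absurd h (Nat.not_even_iff_odd.2 hodd)
        · exact h
      have ho : Odd (D * d * e) := by
        rw [Nat.mul_assoc]
        exact hodd.mul hoe
      exact Pool.Agent.Zk42.US.ratios2 Pool.Agent.Zk42.UC.sel6 hd (by
        obtain ⟨k, hk⟩ := ho
        omega)
        (fun L _ _ μ hμ T hT => Pool.Agent.Zk42.UC.rfin6 L hμ (by omega) T hT) K S hS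
  obtain ⟨R, hR1, hR⟩ := hratios
  set N : ℕ := (D * d * e + 1) ^ 2 * (R.card + 1) + (D * d * e + 2) * R.card with hN
  refine ⟨(R.card + 1) + e * N, S ∪ ⋃ ρ ∈ (R.filter fun ρ => ρ ^ (D * d) ≠ 1),
    {v : HeightOneSpectrum (𝓞 K) | v.valuation K (ρ ^ (D * d) - 1) ≠ 1}, ?_, ?_⟩
  · refine hS.union (Set.Finite.biUnion (Finset.finite_toSet _) fun ρ hρ => ?_)
    rw [Finset.mem_coe, Finset.mem_filter] at hρ
    exact finite_bad K (sub_ne_zero.2 hρ.2)
  intro F H hF hH hFe hHe hA
  -- the symmetric map
  obtain ⟨h1, h2⟩ := hR F H hF hH hFe hHe hA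
  have hcm : (H.comp F).Monic := hH.comp hF (by rw [hFe]; exact hd0.ne')
  have hcd : D * (H.comp F).natDegree = D * d * e := by
    rw [natDegree_comp, hFe, hHe, Nat.mul_comm e, Nat.mul_assoc]
  obtain ⟨c1, c2⟩ := Pool.Agent.Zk42.US.count hcm (by rw [hcd]; omega) R h1 h2
  rw [hcd] at c2
  set g : K → K := fun y => F.eval (y ^ D) with hg
  set h : K → K := fun x => H.eval x with hh
  have hfs : Pool.Agent.Zk42.US.fs (H.comp F) D = h ∘ g := by
    funext x
    exact Pool.Agent.Zk42.US.fs_comp x
  rw [hfs] at c1 c2 h1 h2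
  have c3 : (∀ η : K, η ^ (D * d) = 1 → η ^ D = 1) →
      (∃ v ∉ S ∪ ⋃ ρ ∈ (R.filter fun ρ => ρ ^ (D * d) ≠ 1),
        {v : HeightOneSpectrum (𝓞 K) | v.valuation K (ρ ^ (D * d) - 1) ≠ 1},
        1 < v.valuation K (F.coeff 0)) → (periodic (h ∘ g)).Subsingleton := by
    rintro hη ⟨v, hvS, hv⟩
    rw [Set.mem_union, not_or, Set.mem_iUnion₂] at hvS
    obtain ⟨hvS1, hvS2⟩ := hvS
    obtain ⟨hHi, hFi⟩ := hA v hvS1
    have hDom : Pool.Agent.Zk42.US.Dom (v.valuation K) F := by
      rcases hFi with h | h
      · exact absurd hv (not_lt.2 (h 0))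
      · exact h
    have key : ∀ x y : K, x ∈ periodic (h ∘ g) → y ∈ periodic (h ∘ g) → x ≠ y → y ≠ 0 →
        False := by
      intro x y hx hy hxy hy0
      have hρ := h1 x y hx hy hxy hy0
      have hρ1 := hR1 _ hρ
      have hρe : (x / y) ^ (D * d) ≠ 1 := fun h => hρ1 (hη _ h)
      apply hvS2
      refine ⟨x / y, Finset.mem_filter.2 ⟨hρ, hρe⟩, ?_⟩
      have hx' := Pool.Agent.Zk42.UC.Per.pp hx
      have hy' := Pool.Agent.Zk42.UC.Per.pp hy
      rw [← hfs] at hx' hy'
      have h3 := Pool.Agent.Zk42.US.comp_ratio_near (v.valuation K) hF hH hHi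
        (by rw [hFe, hHe]; exact hd) hDom hx' hy' (by rw [hFe]; exact hDd)
      rw [hFe] at h3
      exact h3.ne
    intro x hx y hy
    by_contra hxy
    by_cases hy0 : y = 0
    · exact key y x hy hx (Ne.symm hxy) (fun h => hxy (h.trans hy0.symm))
    · exact key x y hx hy hxy hy0
  have hB1 : R.card + 1 ≤ (R.card + 1) + e * N := Nat.le_add_right _ _
  have hB2 : N ≤ (R.card + 1) + e * N :=
    (Nat.le_mul_of_pos_left N he0).trans (Nat.le_add_left _ _)
  intro f hf
  rcases hf with hf | hf
  · -- `f = g ∘ h`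
    have hf' : f = g ∘ h := hf
    rw [hf']
    refine ⟨?_, ?_, ?_⟩
    · refine encard_le fun X hX => ?_
      have hinj : Set.InjOn h (X : Set K) := fun x hx y hy he =>
        Pool.Agent.Zk42.US.semi_inj (g := g) (h := h) (hX x hx) (hX y hy) he
      rw [← Finset.card_image_of_injOn hinj]
      refine (c1 _ fun y hy => ?_).trans hB1
      obtain ⟨x, hx, rfl⟩ := Finset.mem_image.1 hy
      exact Pool.Agent.Zk42.US.semi_per (hX x hx)
    · intro hyp
      refine encard_le fun X hX => ?_
      have hyp' : (∃ Y : Finset K, (∀ y ∈ Y, Pool.Agent.Zk42.UC.Per (h ∘ g) y) ∧ 3 ≤ Y.card) ∨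
          (∃ y, Pool.Agent.Zk42.UC.Per (h ∘ g) y ∧ (h ∘ g) y ≠ y) := by
        rcases hyp with h3 | ⟨x, hx, hxx⟩
        · obtain ⟨Y, hY, hY3⟩ := exists_three h3
          have hinj : Set.InjOn h (Y : Set K) := fun x hx y hy he =>
            Pool.Agent.Zk42.US.semi_inj (g := g) (h := h) (hY x hx) (hY y hy) he
          refine Or.inl ⟨Y.image h, fun y hy => ?_, by rw [Finset.card_image_of_injOn hinj]; exact hY3⟩
          obtain ⟨x, hx, rfl⟩ := Finset.mem_image.1 hy
          exact Pool.Agent.Zk42.US.semi_per (hY x hx)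
        · exact Or.inr ⟨h x, Pool.Agent.Zk42.US.semi_per hx,
            Pool.Agent.Zk42.US.semi_fixed hxx hx⟩
      have him : (X.image h).card ≤ N := c2 hyp' _ fun y hy => by
        obtain ⟨x, hx, rfl⟩ := Finset.mem_image.1 hy
        exact Pool.Agent.Zk42.US.semi_pp (hX x hx)
      have hpre : X.card ≤ e * (X.image h).card := by
        have h3 : ∀ b ∈ X.image h, (X.filter fun x => h x = b).card ≤ e := by
          intro b _
          have hdeg : (H - C b : K[X]).natDegree = e := by rw [natDegree_sub_C, hHe]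
          have hne : (H - C b : K[X]) ≠ 0 := by
            intro h0
            rw [h0, natDegree_zero] at hdeg
            omega
          have hsub : (X.filter fun x => h x = b) ⊆ (H - C b : K[X]).roots.toFinset := by
            intro x hx
            rw [Finset.mem_filter] at hx
            rw [Multiset.mem_toFinset, mem_roots hne, IsRoot.def, eval_sub, eval_C, sub_eq_zero]
            exact hx.2
          refine (Finset.card_le_card hsub).trans ((Multiset.toFinset_card_le _).trans ?_)
          refine (card_roots' _).trans ?_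
          rw [hdeg]
        rw [Finset.card_eq_sum_card_fiberwise (f := h) (t := X.image h)
          (fun x hx => Finset.mem_image_of_mem _ hx), Nat.mul_comm]
        exact (Finset.sum_le_card_nsmul _ _ _ h3).trans (by rw [smul_eq_mul])
      calc X.card ≤ e * (X.image h).card := hpre
        _ ≤ e * N := Nat.mul_le_mul_left _ him
        _ ≤ _ := Nat.le_add_left _ _
    · intro hη hv x hx y hy
      have hs := c3 hη hv
      exact Pool.Agent.Zk42.US.semi_inj (g := g) (h := h) hx hy
        (hs (Pool.Agent.Zk42.US.semi_per (g := g) (h := h) hx)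
          (Pool.Agent.Zk42.US.semi_per (g := g) (h := h) hy))
  · have hf' : f = h ∘ g := hf
    rw [hf']
    refine ⟨encard_le fun X hX => (c1 X hX).trans hB1, ?_, c3⟩
    intro hyp
    refine encard_le fun X hX => (c2 ?_ X hX).trans hB2
    rcases hyp with h3 | ⟨x, hx, hxx⟩
    · obtain ⟨Y, hY, hY3⟩ := exists_three h3
      exact Or.inl ⟨Y, hY, hY3⟩
    · exact Or.inr ⟨x, hx, hxx⟩

end Pool.Agent.Results.MP_90787a_nt.PolynomialsOfPowers
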