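import Pool.Agent.Zk42.UC.Exc

/-!
# The preperiodic points of unicritical polynomials over number fields

* Let `K` be a number field and `d ≥ 7`, `d ≡ 1 mod 3`. For all but finitely many `c` in `K` the
  polynomial `x ^ d + c` has no preperiodic point in `K` at all, or a fixed point `w` in `K` such that
  the preperiodic points in `K` are exactly the `x` with `x ^ d = w ^ d`. In particular for only
  finitely many `c` there is a periodic point in `K` of exact period `≥ 2`, whatever the period. And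
  the number of preperiodic points in `K` is bounded by a constant `B` for all `c` together.
* More generally let `K` be a number field, `S` a finite set of primes of `K`, and let `n = 6`,
  `d ≥ 4` or `n = 3`, `d ≥ 6` even. All polynomials `a x ^ d + b` over `K`, `a ≠ 0`, with the following
  property have at most `B` preperiodic points in `K`, and those which are not conjugate by
  a homothety over `K` to one of finitely many polynomials have no preperiodic points in `K` but the
  `x` with `x ^ d = w ^ d`, `w` in `K` a fixed point: at the primes `v ∉ S` with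
  `v (a b ^ (d - 1)) > 1` (no potentially good reduction) for which `v (b / a)` is the `d`-th power of
  an element `r` of the value group, `v (a) r ^ (d - 1)` is an `n`-th power in the value group.

Proof. Let `L` be the field of the `d`-th roots of unity over `K` and let `x ≠ y` be periodic points.
Let `v` be a prime of `L` prime to `d`. If the reduction is potentially good then
`v (x - ζ y)` is the same for all roots of unity `ζ ≠ 1`, since the product of the numbers
`(f (x) - f (y)) / (x - y) = a ∏ (x - ζ y)` over a common period is `1` and none of the factors is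
too large. Otherwise all preperiodic points have the same absolute value `r`, and the absolute
values of all the differences `x - ζ y` are `r / q ^ m` with `m ≥ 0`, where `q = v (a) r ^ (d - 1)`.
So `(x - ζ y) / (x - ζ' y)` is an `n`-th power up to finitely many factors for all `ζ, ζ' ≠ 1`,
and `x / y` comes from a point on one of finitely many twists of the curve `u ^ 6 + v ^ 6 = 1` if
`n = 6`, and on one of finitely many twists of `y ^ 2 = x ^ 6 + 1` if `n = 3`, `d` even. These curves
have finitely many points over every number field by the library (`Pool/Agent/H437R2/Man`); so there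
are finitely many ratios `x / y` for all the polynomials together. Similar arguments apply to a
point `u` with `f ^ k (u) = ζ w`, `w` periodic, `ζ ≠ 1`, and a suitable periodic point `y`. Finally
if `x = ρ y`, `f (x) = ρ₁ y`, `f (y) = ρ₂ y`, `ρ ^ d ≠ 1`, then `a y ^ (d - 1) = (ρ₁ - ρ₂) / (ρ ^ d - 1)`
and `b / y` take finitely many values.
-/

set_option autoImplicit false

namespace Pool.Agent.Results.MP_90787a_nt.UnicriticalNumberFields

open IsDedekindDomain NumberField
open scoped WithZero

/-- the set of the preperiodic points of a self-map `f` of `K` -/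
def preperiodic {K : Type} (f : K → K) : Set K := {x | ∃ i j : ℕ, i < j ∧ f^[i] x = f^[j] x}

lemma encard_le {K : Type} {s : Set K} {B : ℕ}
    (h : ∀ X : Finset K, (∀ x ∈ X, x ∈ s) → X.card ≤ B) : s.encard ≤ B := by
  by_contra hc
  push Not at hc
  have h1 : ((B + 1 : ℕ) : ℕ∞) ≤ s.encard := by
    rw [Nat.cast_add, Nat.cast_one]
    exact Order.add_one_le_of_lt hc
  obtain ⟨t, ht, hcard⟩ := Set.exists_subset_encard_eq h1
  have hfin : t.Finite := Set.finite_of_encard_eq_coe hcard
  have h2 := h hfin.toFinset (fun x hx => ht (hfin.mem_toFinset.1 hx))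
  have h3 : t.encard = (hfin.toFinset.card : ℕ∞) := hfin.encard_eq_coe_toFinset_card
  rw [hcard] at h3
  have h4 : B + 1 = hfin.toFinset.card := by exact_mod_cast h3
  omega

theorem result :
    -- all polynomials `x ^ d + c` over a number field, `d ≡ 1 mod 3`
    (∀ d : ℕ, 7 ≤ d → d % 3 = 1 → ∀ (K : Type) [Field K] [NumberField K],
      ∃ (B : ℕ) (E : Finset K), ∀ c : K, (preperiodic (fun x : K => x ^ d + c)).encard ≤ B ∧
        (c ∉ E → preperiodic (fun x : K => x ^ d + c) = ∅ ∨
          ∃ w : K, w ^ d + c = w ∧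
            preperiodic (fun x : K => x ^ d + c) = {x | x ^ d = w ^ d})) ∧
    -- polynomials `a x ^ d + b` with a condition at the primes of bad reduction outside `S`
    (∀ n d : ℕ, (n = 6 ∧ 4 ≤ d ∨ n = 3 ∧ 6 ≤ d ∧ Even d) →
      ∀ (K : Type) [Field K] [NumberField K] (S : Set (HeightOneSpectrum (𝓞 K))), S.Finite →
      ∃ (B : ℕ) (F : Finset (K × K)), ∀ a b : K, a ≠ 0 →
        (∀ v : HeightOneSpectrum (𝓞 K), v ∉ S → 1 < v.valuation K (a * b ^ (d - 1)) →
          ∀ r : ℤᵐ⁰, v.valuation K a * r ^ d = v.valuation K b →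
            ∃ h : ℤᵐ⁰, v.valuation K a * r ^ (d - 1) = h ^ n) →
        (preperiodic (fun x : K => a * x ^ d + b)).encard ≤ B ∧
        ((∀ l : K, l ≠ 0 → (a * l ^ (d - 1), b / l) ∉ F) →
          preperiodic (fun x : K => a * x ^ d + b) = ∅ ∨
          ∃ w : K, a * w ^ d + b = w ∧
            preperiodic (fun x : K => a * x ^ d + b) = {x | x ^ d = w ^ d})) := by
  classical
  have key : ∀ n d : ℕ, (n = 6 ∧ 4 ≤ d ∨ n = 3 ∧ 6 ≤ d ∧ Even d) →
      ∀ (K : Type) [Field K] [NumberField K] (S : Set (HeightOneSpectrum (𝓞 K))), S.Finite →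
      ∃ (B : ℕ) (F : Finset (K × K)), ∀ a b : K, a ≠ 0 →
        (∀ v : HeightOneSpectrum (𝓞 K), v ∉ S → 1 < v.valuation K (a * b ^ (d - 1)) →
          ∀ r : ℤᵐ⁰, v.valuation K a * r ^ d = v.valuation K b →
            ∃ h : ℤᵐ⁰, v.valuation K a * r ^ (d - 1) = h ^ n) →
        (preperiodic (fun x : K => a * x ^ d + b)).encard ≤ B ∧
        ((∀ l : K, l ≠ 0 → (a * l ^ (d - 1), b / l) ∉ F) →
          preperiodic (fun x : K => a * x ^ d + b) = ∅ ∨
          ∃ w : K, a * w ^ d + b = w ∧
            preperiodic (fun x : K => a * x ^ d + b) = {x | x ^ d = w ^ d}) := by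
    intro n d hnd K _ _ S hS
    have hd2 : 2 ≤ d := by omega
    obtain ⟨B, R, hRd, hB⟩ : ∃ (B : ℕ) (R : Finset K), (∀ ρ ∈ R, ρ ^ d ≠ 1) ∧ ∀ a b : K, a ≠ 0 →
        Pool.Agent.Zk42.UC.CondK S a b d n →
      (∀ X : Finset K, (∀ x ∈ X, Pool.Agent.Zk42.UC.PP (Pool.Agent.Zk42.UC.fu a b d) x) →
        X.card ≤ B) ∧
      (∀ x y : K, Pool.Agent.Zk42.UC.Per (Pool.Agent.Zk42.UC.fu a b d) x →
        Pool.Agent.Zk42.UC.Per (Pool.Agent.Zk42.UC.fu a b d) y → x ≠ y → y ≠ 0 → x / y ∈ R) ∧
      (∀ (x z ζ : K) (k : ℕ), Pool.Agent.Zk42.UC.PP (Pool.Agent.Zk42.UC.fu a b d) x →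
        Pool.Agent.Zk42.UC.fu a b d z = z → ζ ^ d = 1 → ζ ≠ 1 → 1 ≤ k →
        (Pool.Agent.Zk42.UC.fu a b d)^[k] x = ζ * z → z ≠ 0 → x / z ∈ R) := by
      rcases hnd with ⟨rfl, hd⟩ | ⟨rfl, hd, hde⟩
      · exact Pool.Agent.Zk42.UC.main_K Pool.Agent.Zk42.UC.sel6 (by omega)
          (fun L _ _ μ hμ T hT => Pool.Agent.Zk42.UC.rfin6 L hμ hd T hT) K S hS
      · exact Pool.Agent.Zk42.UC.main_K Pool.Agent.Zk42.UC.sel3 (by omega)
          (fun L _ _ μ hμ T hT => Pool.Agent.Zk42.UC.rfin3 L hμ hd hde T hT) K S hS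
    set U : Finset K := R ∪ Polynomial.nthRootsFinset d (1 : K) with hU
    refine ⟨B, Pool.Agent.Zk42.UC.excSet d R U, fun a b ha hC => ?_⟩
    obtain ⟨h0, h1, h3⟩ := hB a b ha (fun v hv h1 r hr => by
      refine hC v hv ?_ r hr
      rw [map_mul, map_pow]
      exact h1)
    refine ⟨encard_le h0, fun hF => ?_⟩
    rcases Pool.Agent.Zk42.UC.dichotomy ha hd2 hRd Finset.subset_union_left
      (fun ζ hζ => Finset.mem_union_right _ ((Polynomial.mem_nthRootsFinset (by omega) 1).2 hζ))
      h1 h3 with ⟨y, hy, hmem⟩ | h | ⟨w, hw, h⟩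
    · exact absurd hmem (hF y hy)
    · exact Or.inl (Set.eq_empty_iff_forall_notMem.2 h)
    · exact Or.inr ⟨w, hw, Set.ext h⟩
  refine ⟨?_, key⟩
  intro d hd hd3 K _ _
  obtain ⟨n, hn, hdvd⟩ : ∃ n : ℕ, (n = 6 ∧ 4 ≤ d ∨ n = 3 ∧ 6 ≤ d ∧ Even d) ∧ n ∣ d - 1 := by
    rcases Nat.even_or_odd d with he | ho
    · exact ⟨3, Or.inr ⟨rfl, by omega, he⟩, by omega⟩
    · obtain ⟨k, hk⟩ := ho
      exact ⟨6, Or.inl ⟨rfl, by omega⟩, by omega⟩
  obtain ⟨B, F, hB⟩ := key n d hn K ∅ Set.finite_empty
  refine ⟨B, F.biUnion (fun p => (Polynomial.nthRoots (d - 1) p.1).toFinset.image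
    (fun l => p.2 * l)), fun c => ?_⟩
  have e : (fun x : K => 1 * x ^ d + c) = (fun x : K => x ^ d + c) := by
    funext x
    rw [one_mul]
  obtain ⟨h1, h2⟩ := hB 1 c one_ne_zero (by
    intro v _ _ r _
    obtain ⟨k, hk⟩ := hdvd
    refine ⟨r ^ k, ?_⟩
    rw [map_one, one_mul, hk, ← pow_mul, Nat.mul_comm])
  rw [e] at h1 h2
  refine ⟨h1, fun hc => ?_⟩
  have hF : ∀ l : K, l ≠ 0 → (1 * l ^ (d - 1), c / l) ∉ F := by
    intro l hl hF
    refine hc (Finset.mem_biUnion.2 ⟨_, hF, Finset.mem_image.2 ⟨l, ?_, ?_⟩⟩)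
    · rw [Multiset.mem_toFinset, Polynomial.mem_nthRoots (by omega)]
      show l ^ (d - 1) = 1 * l ^ (d - 1)
      rw [one_mul]
    · show c / l * l = c
      exact div_mul_cancel₀ _ hl
  rcases h2 hF with h | ⟨w, hw, h⟩
  · exact Or.inl h
  · rw [one_mul] at hw
    exact Or.inr ⟨w, hw, h⟩

end Pool.Agent.Results.MP_90787a_nt.UnicriticalNumberFields
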