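import Pool.Agent.Zk42.UV.Main

/-!
# `x ^ d + c`: a bound for the preperiodic points which is uniform in the field

Let `d ≥ 5` be odd. The number of the preperiodic points of `x ^ d + c` in a number field `K` is
bounded, for ALL number fields `K` and ALL `c` in `K` together, in terms of

* `d`,
* the degree of `K` over `ℚ`, and
* the number of the elements of order at most two in the class group of the field `K(ζ_d)` of the
  `d`-th roots of unity over `K`.

So the uniform boundedness conjecture (a bound in terms of `d` and `[K : ℚ]`) holds for these
polynomials as long as the `2`-rank of the class group of `K(ζ_d)` stays bounded, for instance for all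
number fields of bounded degree for which `K(ζ_d)` has bounded class number.

More generally let `d ≥ 5` (odd or even) and let `S` be a set of at most `s` primes of `K`. For all
`a ≠ 0`, `b` in `K` with the following property the number of the preperiodic points of `a x ^ d + b` in
`K` is bounded in terms of `d`, `[K : ℚ]`, the number of the elements of order at most two in the
class group of `K(ζ_d)`, and `s`: at the primes `v ∉ S` with `v (a b ^ (d - 1)) > 1` (no potentially
good reduction) for which `v (b / a)` is the `d`-th power of an element `r` of the value group,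
`v (a) r ^ (d - 1)` is a square in the value group. For odd `d` it is enough that the order of `a`
at all primes outside `S` is even.

Proof. Let `L = K(ζ_d)`, let `Σ` be the set of the primes of `L` which divide `d` or are above `S`, and
let `L(Σ, 2)` be the group of the elements of `L` with even order at all primes outside `Σ`, modulo
squares. Its order is bounded in terms of the data above. The ratio `t = x / y` of two different
periodic points has the property that `(t - ζ) / (t - ζ')` is in `L(Σ, 2)` for all `d`-th roots of
unity `ζ, ζ' ≠ 1`; so `δ y² = (t - ζ₁) (t - ζ₂) (t - ζ₃) (t - ζ₄)` with `y` in `L` and `δ` from a list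
which represents `L(Σ, 2)`. Hence `t` is the coordinate of a point of the twist by `δ` of a fixed
elliptic curve `E` over `ℚ(ζ_d)` with rational `2`-torsion and with good reduction outside `2 d`. The
number of the elements of `E_δ(L) / 2 E_δ(L)`, hence the rank of `E_δ(L)`, is bounded in terms of the
order of `L(Σ, 2)` by a complete `2`-descent. We measure the points of `E_δ(L)` by the canonical
height on `E(L(√δ))`; the difference between the canonical and the naive height of a fixed curve,
divided by the degree of the field, does not depend on the field. Now the gap principle of our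
`UG` files (among any `2 d + 1` ratios there are two for which the difference of the points has a
large height, since all the ratios are close to `d`-th roots of unity at the places of large
coefficients) and a packing argument in the Euclidean space `E_δ(L) ⊗ ℝ` bound the number of the
ratios for all coefficients of large height relative to the degree. For the other coefficients the
ratios are of bounded degree and height, and there are only finitely many such algebraic numbers
(Northcott).
-/

set_option autoImplicit false

namespace Pool.Agent.Results.MP_90787a_nt.UniformInTheField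

open IsDedekindDomain NumberField
open scoped WithZero

/-- the set of the preperiodic points of a self-map `f` of `K` -/
def preperiodic {K : Type} (f : K → K) : Set K := {x | ∃ i j : ℕ, i < j ∧ f^[i] x = f^[j] x}

/-- the number of the elements of order at most two of the class group of `K(ζ_d)` -/
noncomputable def classes₂ (d : ℕ) (K : Type) [Field K] [NumberField K] [NeZero d] : ℕ :=
  Nat.card {g : ClassGroup (𝓞 (CyclotomicField d K)) // g ^ 2 = 1}

lemma encard_le {K : Type} {s : Set K} {B : ℕ}
    (h : ∀ X : Finset K, (∀ x ∈ X, x ∈ s) → X.card ≤ B) : s.encard ≤ B := by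
  by_contra hc
  push Not at hc
  have h1 : ((B + 1 : ℕ) : ℕ∞) ≤ s.encard := by
    rw [Nat.cast_add, Nat.cast_one]
    exact Order.add_one_le_of_lt hc
  obtain ⟨t, ht, hcard⟩ := Set.exists_subset_encard_eq h1
  have hfin : t.Finite := Set.finite_of_encard_eq_coe hcard
  have h2 := h hfin.toFinset (fun x hx => ht (hfin.mem_toFinset.1 hx))
  have h3 : t.encard = (hfin.toFinset.card : ℕ∞) := hfin.encard_eq_coe_toFinset_card
  rw [hcard] at h3
  have h4 : B + 1 = hfin.toFinset.card := by exact_mod_cast h3
  omega

theorem result :
    -- all polynomials `x ^ d + c` over all number fields, `d ≥ 5` odd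
    (∀ (d : ℕ) [NeZero d], 5 ≤ d → Odd d → ∀ D R : ℕ, ∃ B : ℕ,
      ∀ (K : Type) [Field K] [NumberField K], Module.finrank ℚ K ≤ D → classes₂ d K ≤ R →
      ∀ c : K, (preperiodic (fun x : K => x ^ d + c)).encard ≤ B) ∧
    -- polynomials `a x ^ d + b` with a condition at the primes of bad reduction outside `S`
    (∀ (d : ℕ) [NeZero d], 5 ≤ d → ∀ D R s : ℕ, ∃ B : ℕ,
      ∀ (K : Type) [Field K] [NumberField K], Module.finrank ℚ K ≤ D → classes₂ d K ≤ R →
      ∀ S : Set (HeightOneSpectrum (𝓞 K)), S.Finite → S.ncard ≤ s → ∀ a b : K, a ≠ 0 →
        (∀ v : HeightOneSpectrum (𝓞 K), v ∉ S → 1 < v.valuation K (a * b ^ (d - 1)) →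
          ∀ r : ℤᵐ⁰, v.valuation K a * r ^ d = v.valuation K b →
            ∃ h : ℤᵐ⁰, v.valuation K a * r ^ (d - 1) = h ^ 2) →
        (preperiodic (fun x : K => a * x ^ d + b)).encard ≤ B) := by
  have key : ∀ (d : ℕ) [NeZero d], 5 ≤ d → ∀ D R s : ℕ, ∃ B : ℕ,
      ∀ (K : Type) [Field K] [NumberField K], Module.finrank ℚ K ≤ D → classes₂ d K ≤ R →
      ∀ S : Set (HeightOneSpectrum (𝓞 K)), S.Finite → S.ncard ≤ s → ∀ a b : K, a ≠ 0 →
        (∀ v : HeightOneSpectrum (𝓞 K), v ∉ S → 1 < v.valuation K (a * b ^ (d - 1)) →
          ∀ r : ℤᵐ⁰, v.valuation K a * r ^ d = v.valuation K b →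
            ∃ h : ℤᵐ⁰, v.valuation K a * r ^ (d - 1) = h ^ 2) →
        (preperiodic (fun x : K => a * x ^ d + b)).encard ≤ B := by
    intro d _ hd D R s
    obtain ⟨B, hB⟩ := Pool.Agent.Zk42.UV.main_unif hd D R s
    refine ⟨B, fun K _ _ hD hR S hS hSs a b ha hC => ?_⟩
    refine encard_le (hB K hD ?_ S hS hSs a b ha fun v hv h1 r hr => ?_)
    · refine le_trans (le_of_eq ?_) hR
      rfl
    · refine hC v hv ?_ r hr
      rw [map_mul, map_pow]
      exact h1
  refine ⟨?_, key⟩
  intro d _ hd hdo D R
  obtain ⟨B, hB⟩ := key d hd D R 0
  refine ⟨B, fun K _ _ hD hR c => ?_⟩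
  have e : (fun x : K => 1 * x ^ d + c) = (fun x : K => x ^ d + c) := by
    funext x
    rw [one_mul]
  have h1 := hB K hD hR ∅ Set.finite_empty (by rw [Set.ncard_empty]) 1 c one_ne_zero (by
    intro v _ _ r _
    obtain ⟨k, hk⟩ := hdo
    refine ⟨r ^ k, ?_⟩
    rw [map_one, one_mul, hk, Nat.add_sub_cancel, ← pow_mul, Nat.mul_comm])
  rwa [e] at h1

end Pool.Agent.Results.MP_90787a_nt.UniformInTheField
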